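import Pool.Agent.J6H26.CP.Riesz

/-! # Almost transitive norms with a compact perturbation of the identity

Let `E` be a real Banach space, of any density, whose isometries have dense orbits on the unit
sphere. If there is an isometry `T ≠ 1` with `T - 1` compact, then `E` is a Hilbert space. It is
enough that `T - 1` is strictly singular, or that every closed subspace `V` with `T V = V` on which
`T - 1` is bounded below is finite-dimensional.

Proof (files `Pool/Agent/J6H26/CP`). Let `Γ` be the group of the isometries `S` with `S - 1` compact.
1. `Four.lean`, `Fc.lean`, `Win.lean`, `Riesz.lean`: a functional calculus for isometries with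
   absolutely convergent Fourier series. The windows of `T` off `1` have finite rank (and then `T - 1`
   is compact).
2. `Ker.lean`: let `W` be a window of `T`. An operator which commutes with all conjugates of `W` is
   zero or injective.
3. `Sk.lean`, `Adw.lean`: if a skew operator `Y` (`‖1 + s Y‖ ≤ 1 + o(s)`) does not commute with `T`,
   then a window of `Y` under conjugation by `T` is a nonzero skew operator of finite rank. Its
   exponentials are finite rank perturbations of the identity, so `E` is a Hilbert space by
   `FiniteRankPerturbations`.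
4. `Ultra.lean`, `Seq.lean`, `Small.lean`: if `S n ≠ 1` in `Γ` tend to `1` in norm, then
   `(S n - 1) / ‖S n - 1‖` is a skew operator with a nonzero kernel on the ultrapower, which is almost
   transitive. So 2 and 3 apply to the ultrapower.
5. `Weak.lean`: otherwise `Γ` is discrete in norm. If isometries `b` tend weakly to `1`, then
   `b S b⁻¹ S⁻¹` tends to `1` in norm for `S` in `Γ`, because the cube of `b S b⁻¹ S⁻¹ - 1` tends
   to zero. So `b` commutes with `S` if it is weakly close to `1`.
6. `Null.lean`, `Ap.lean`: pigeonhole principle. In a group which acts almost periodically on its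
   almost periodic vectors and on the quotient by them, one finds quotients of members of a given
   sequence which are weakly close to `1`.
7. `Comm.lean`: for `S`, `R` in `Γ` a power of `S` commutes with `R`, the principle applies to the
   group generated by `S` and `R`, and its center has finite index. By the transfer homomorphism the
   commutator of `S` and `R` has finite order, so it is a finite rank perturbation of the identity. If
   all these commutators are `1`, then `T` commutes with its conjugates, in contradiction with 2.
-/

set_option autoImplicit false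

namespace Pool.Agent.Results.MP_cc72b1_an.CompactPerturbations

open Pool.Agent.J6H26.FR Pool.Agent.J6H26.CP

universe u

theorem result :
    ∀ (E : Type u) [NormedAddCommGroup E] [NormedSpace ℝ E] [CompleteSpace E],
      -- dense orbits on the unit sphere
      (∀ x y : E, ‖x‖ = 1 → ‖y‖ = 1 → ∀ ε : ℝ, 0 < ε → ∃ g : E ≃ₗᵢ[ℝ] E, ‖g x - y‖ < ε) →
      -- a nontrivial isometry `T` such that `T - 1` is compact, or at least such that the closed
      -- subspaces `V` with `T V = V` on which `T - 1` is bounded below are finite-dimensional
      (∃ T : E ≃ₗᵢ[ℝ] E, (∃ x, T x ≠ x) ∧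
        (IsCompactOperator (fun x => T x - x) ∨
          ∀ V : Submodule ℝ E, IsClosed (V : Set E) → (∀ v ∈ V, T v ∈ V) →
            (∀ v ∈ V, T.symm v ∈ V) → (∃ c : ℝ, 0 < c ∧ ∀ v ∈ V, c * ‖v‖ ≤ ‖T v - v‖) →
            FiniteDimensional ℝ V)) →
      ∃ (H : Type u) (_ : NormedAddCommGroup H) (_ : InnerProductSpace ℝ H) (_ : CompleteSpace H),
        Nonempty (E ≃ₗᵢ[ℝ] H) := by
  rintro E _ _ _ hG ⟨T, ⟨z, hz⟩, hT⟩
  have hAT : AT (⊤ : Subgroup (E ≃ₗᵢ[ℝ] E)) := by
    intro x y hx hy ε hε
    obtain ⟨g, hg⟩ := hG x y hx hy ε hε
    exact ⟨g, trivial, hg⟩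
  have hT1 : T ≠ 1 := by
    rintro rfl
    exact hz rfl
  have hpar : ∀ x y : E, ‖x + y‖ ^ 2 + ‖x - y‖ ^ 2 = 2 * (‖x‖ ^ 2 + ‖y‖ ^ 2) := by
    rcases hT with hT | hT
    · exact fun x y => para_cpt hAT (T := T) hT hT1 x y
    · exact fun x y => para_riesz hAT (T := T) hT hT1 x y
  have key : ∀ x y : E,
      ‖x + y‖ * ‖x + y‖ + ‖x - y‖ * ‖x - y‖ = 2 * (‖x‖ * ‖x‖ + ‖y‖ * ‖y‖) := by
    intro x y
    have := hpar x y
    nlinarith [this]
  exact ⟨E, inferInstance, InnerProductSpace.ofNorm ℝ key, inferInstance,
    ⟨LinearIsometryEquiv.refl ℝ E⟩⟩

end Pool.Agent.Results.MP_cc72b1_an.CompactPerturbations
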