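import Pool.Agent.J6H26.FR.Perturb

/-! # Almost transitive norms with a finite rank perturbation of the identity

A real normed space `E`, a group `G` of isometries with dense orbits on the unit sphere, and a group
`N` of operators, normalized by `G`, whose finitely generated subgroups are bounded. If `N` contains
`S ≠ 1` with `S - 1` of finite rank, then the norm of `E` comes from an inner product.

Proof (files `Pool/Agent/J6H26/FR`).
1. `Inv.lean`: a bounded group on a finite-dimensional space preserves an inner product.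
2. `Alg.lean`, `Perturb.lean`: so `S - 1 ↦ S⁻¹ - 1` extends to an involution of the algebra `A`
   spanned by the operators `S - 1` of finite rank (`S` in `N`), which is locally an adjoint. Let `e`
   be a self-adjoint projection of minimal rank in `A`, and `h` a unit vector with `e h = h`.
   Symmetric elements of `e A e` are scalars.
3. `Chain.lean`: `G` is generated, with a bounded number of factors, by elements moving `h` slightly.
4. `Dens.lean`, `One.lean`: by density of the orbits `e A e` acts transitively on the range of `e`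
   (multiplicity one), and `G h` is contained in `A h`.
5. `Val.lean`: for `g h = a h` put `e a' a e = t e`; the number `t` depends multiplicatively on `g`,
   it is bounded below by 3 and positivity, so `t = 1`. It follows that `e a' a e = ‖a h‖² e` for all
   `a` in `A`, which is the parallelogram law on the dense subspace `A h`.
-/

set_option autoImplicit false

namespace Pool.Agent.Results.MP_cc72b1_an.FiniteRankPerturbations

open Pool.Agent.J6H26.FR

universe u

lemma finR_iff {E : Type u} [NormedAddCommGroup E] [NormedSpace ℝ E] (S : E ≃L[ℝ] E) :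
    FinR S ↔ ∃ V : Submodule ℝ E, FiniteDimensional ℝ V ∧ ∀ x, S x - x ∈ V := by
  constructor
  · intro h
    exact ⟨_, h, fun x => ⟨x, rfl⟩⟩
  · rintro ⟨V, hV, h⟩
    refine Submodule.finiteDimensional_of_le (S₂ := V) ?_
    rintro _ ⟨x, rfl⟩
    exact h x

theorem result :
    ∀ (E : Type u) [NormedAddCommGroup E] [NormedSpace ℝ E] (G : Subgroup (E ≃ₗᵢ[ℝ] E))
      (N : Subgroup (E ≃L[ℝ] E)),
      -- dense orbits on the unit sphere
      (∀ x y : E, ‖x‖ = 1 → ‖y‖ = 1 → ∀ ε : ℝ, 0 < ε → ∃ T ∈ G, ‖T x - y‖ < ε) →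
      -- `N` is normalized by `G`
      (∀ T ∈ G, ∀ S ∈ N, T.toContinuousLinearEquiv * S * T.toContinuousLinearEquiv⁻¹ ∈ N) →
      -- the finitely generated subgroups of `N` are bounded
      (∀ F : Set (E ≃L[ℝ] E), F.Finite → F ⊆ N →
        ∃ C : ℝ, ∀ S ∈ Subgroup.closure F, ∀ x, ‖S x‖ ≤ C * ‖x‖) →
      -- some element of `N` is a nontrivial finite rank perturbation of the identity
      (∃ S ∈ N, (∃ x, S x ≠ x) ∧
        ∃ V : Submodule ℝ E, FiniteDimensional ℝ V ∧ ∀ x, S x - x ∈ V) →
      (∃ (H : Type u) (instH : NormedAddCommGroup H) (instI : InnerProductSpace ℝ H),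
        Nonempty (E ≃ₗᵢ[ℝ] H)) ∧
      (¬ FiniteDimensional ℝ E → ∀ S ∈ N,
        (∃ V : Submodule ℝ E, FiniteDimensional ℝ V ∧ ∀ x, S x - x ∈ V) → ∀ x, ‖S x‖ = ‖x‖) := by
  rintro E _ _ G N hG hN hb ⟨S, hSN, hS1, hS⟩
  refine ⟨?_, fun hE R hR hRf => main_iso hG hN hb hE R hR ((finR_iff R).2 hRf)⟩
  have key : ∀ x y : E,
      ‖x + y‖ * ‖x + y‖ + ‖x - y‖ * ‖x - y‖ = 2 * (‖x‖ * ‖x‖ + ‖y‖ * ‖y‖) := by
    intro x y
    have := main hG hN hb ⟨S, hSN, (finR_iff S).2 hS, hS1⟩ x y
    nlinarith [this]
  exact ⟨E, inferInstance, InnerProductSpace.ofNorm ℝ key, ⟨LinearIsometryEquiv.refl ℝ E⟩⟩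

end Pool.Agent.Results.MP_cc72b1_an.FiniteRankPerturbations
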