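import Pool.Agent.J6H34.RT.Weak2

/-!
# MP_cc72b1_an (Banach-Mazur rotation problem): norm attaining functionals and uniform convexity

Let `E` be a separable real Banach space, `E ≠ 0`, whose isometries act transitively on the unit sphere.  Then
`E` is strictly convex.  Moreover `E` and its dual space are uniformly convex, unless the following holds.  The
functionals which attain their norm form a set of first category: in the dual space with the norm topology, in
the unit sphere of the dual space with the weak* topology, and, those of norm one, in themselves for every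
topology which is invariant under the isometries, finer than the weak* topology and coarser than the norm
topology.  Moreover the diameters of the nonempty relatively weakly open subsets of the unit ball of `E` have a
positive lower bound, and the same is true for the unit ball of the dual space (with its weak topology).

Proof outline (files `Pool/Agent/J6H34/RT/*`).

1. `Strict`: the maximal faces of the unit ball are points.  The isometries act transitively on such a face `F`
   (by the uniqueness of the support functionals, starting file `H821/Rot/Dual`).  A dense convex combination of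
   points of `F` is not a proper support point of `F`; if `F` has more than one point then, by the theorem of
   Bishop and Phelps for `F` (`Bp`), some point of `F` is a proper support point.
2. `Eff`: let the isometries act transitively by homeomorphisms on a space `Y` of functionals which is not of
   first category in itself.  Then the functionals near `y` are images of `y` under isometries near the
   identity (as in the theorem of Effros; infinite products of isometries).
3. `Uc`, `Inst`, `Top`: apply 2 to the norm attaining functionals of norm one; by 1 the maximum points of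
   functionals near `f` are near the one of `f`; with the theorem of Bishop, Phelps and Bollobas the slices of
   the unit ball at `f` are small, by transitivity uniformly in `f`.
4. `Refl`: reflexivity (Milman, Pettis), and the same argument for the dual space.
5. `Weak`, `Weak2`: an extreme point of a ball which has small weak neighbourhoods in the ball lies in small
   slices (Lin, Lin, Troyanski); all points of the sphere of `E`, and the norm attaining functionals of norm
   one, are extreme points.
-/

set_option autoImplicit false

namespace Pool.Agent.Results.MP_cc72b1_an.NormAttaining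

open TopologicalSpace Topology

/-- The functional `f` attains its norm: `f x = ‖f‖` for some `x` of norm one. -/
def AttainsNorm {E : Type} [NormedAddCommGroup E] [NormedSpace ℝ E] (f : StrongDual ℝ E) : Prop :=
  ∃ x : E, ‖x‖ = 1 ∧ f x = ‖f‖

/-- The set of norm attaining functionals of norm one (as a type). -/
abbrev NA (E : Type) [NormedAddCommGroup E] [NormedSpace ℝ E] : Type :=
  {f : StrongDual ℝ E // ‖f‖ = 1 ∧ AttainsNorm f}

/-- The norm topology on `NA E` (the topology of the subspace `NA E` of the dual space). -/
@[reducible] noncomputable def normTopology (E : Type) [NormedAddCommGroup E] [NormedSpace ℝ E] : TopologicalSpace (NA E) :=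
  TopologicalSpace.induced (fun f : NA E => f.1) inferInstance

lemma rot_mem {E : Type} [NormedAddCommGroup E] [NormedSpace ℝ E] (T : E ≃ₗᵢ[ℝ] E)
    (f : NA E) : ‖f.1.comp (T : E →L[ℝ] E)‖ = 1 ∧ AttainsNorm (f.1.comp (T : E →L[ℝ] E)) :=
  (Pool.Agent.J6H34.RT.aN T.symm f).2

/-- The functional `f ∘ T`, for an isometry `T` of `E` onto itself. -/
noncomputable def rot {E : Type} [NormedAddCommGroup E] [NormedSpace ℝ E] (T : E ≃ₗᵢ[ℝ] E)
    (f : NA E) : NA E :=
  ⟨f.1.comp (T : E →L[ℝ] E), rot_mem T f⟩

/-- For each `ε > 0` the unit ball of `X` has a nonempty relatively weakly open subset of diameter at most `ε`;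
the subset consists of the `u` in the unit ball with `|f (u - y)| < η` for all `f` in the finite set `F`. -/
def SmallWeaklyOpenSets (X : Type) [NormedAddCommGroup X] [NormedSpace ℝ X] : Prop :=
  ∀ ε : ℝ, 0 < ε → ∃ (F : Finset (StrongDual ℝ X)) (y : X) (η : ℝ), 0 < η ∧ ‖y‖ ≤ 1 ∧
    ∀ u v : X, ‖u‖ ≤ 1 → ‖v‖ ≤ 1 → (∀ f ∈ F, |f (u - y)| < η) → (∀ f ∈ F, |f (v - y)| < η) →
      ‖u - v‖ ≤ ε

/-- Let `E` be a separable real Banach space, `E ≠ 0`, with transitive norm.  Then `E` is strictly convex and
the following are equivalent:
(1) `E` is uniformly convex;
(2) the dual space is uniformly convex;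
(3) `E` is reflexive;
(4) every functional attains its norm;
(5) the set of norm attaining functionals is not of first category in the dual space (norm topology);
(6) the set of norm attaining functionals of norm one is not of first category in the unit sphere of the
dual space with the weak* topology;
(7) for some topology `τ` on the set `NA E` of norm attaining functionals of norm one, for which the maps
`f ↦ f ∘ T` (`T` an isometry) and `f ↦ f x` (`x ∈ E`) are continuous, and which is coarser than the norm
topology, `NA E` is not of first category in itself;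
(8) for each `ε > 0` the unit ball of `E` has a nonempty relatively weakly open subset of diameter at most `ε`;
(9) for each `ε > 0` the unit ball of the dual space has a nonempty relatively weakly open subset of diameter at
most `ε`. -/
theorem result (E : Type) [NormedAddCommGroup E] [NormedSpace ℝ E] [CompleteSpace E]
    [SeparableSpace E] [Nontrivial E]
    (htr : ∀ x y : E, ‖x‖ = 1 → ‖y‖ = 1 → ∃ T : E ≃ₗᵢ[ℝ] E, T x = y) :
    StrictConvexSpace ℝ E ∧
    List.TFAE [
      UniformConvexSpace E,
      UniformConvexSpace (StrongDual ℝ E),
      Function.Surjective (NormedSpace.inclusionInDoubleDual ℝ E),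
      ∀ f : StrongDual ℝ E, AttainsNorm f,
      ¬ IsMeagre {f : StrongDual ℝ E | AttainsNorm f},
      ¬ IsMeagre {f : {f : WeakDual ℝ E // ‖WeakDual.toStrongDual f‖ = 1} |
        AttainsNorm (WeakDual.toStrongDual f.1)},
      ∃ τ : TopologicalSpace (NA E),
        (∀ T : E ≃ₗᵢ[ℝ] E, @Continuous _ _ τ τ (rot T)) ∧
        (∀ x : E, @Continuous _ _ τ _ fun f : NA E => f.1 x) ∧
        (∀ U : Set (NA E), IsOpen[τ] U → IsOpen[normTopology E] U) ∧
        ¬ @IsMeagre _ τ (Set.univ : Set (NA E)),
      SmallWeaklyOpenSets E,
      SmallWeaklyOpenSets (StrongDual ℝ E)] := by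
  refine ⟨Pool.Agent.J6H34.RT.strictConvex htr, ?_⟩
  tfae_have 1 → 3 := fun h => Pool.Agent.J6H34.RT.refl_of_uc h
  tfae_have 3 → 2 := fun h => Pool.Agent.J6H34.RT.ucDual htr h
  tfae_have 2 → 3 := fun h => Pool.Agent.J6H34.RT.refl_of_dual
    (Pool.Agent.J6H34.RT.refl_of_uc h)
  tfae_have 3 → 4 := fun h => Pool.Agent.J6H34.RT.att_of_refl h
  tfae_have 4 → 5 := fun h => by
    have h1 : {f : StrongDual ℝ E | AttainsNorm f} = Set.univ := Set.eq_univ_iff_forall.2 h
    rw [h1]
    exact not_isMeagre_of_isOpen isOpen_univ Set.univ_nonempty
  tfae_have 4 → 6 := fun h => Pool.Agent.J6H34.RT.nonmeagre_allW h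
  tfae_have 4 → 7 := fun h => ⟨normTopology E,
    fun T => ((Pool.Agent.J6H34.RT.ac_continuous T.symm).comp continuous_subtype_val).subtype_mk _,
    fun x => ((ContinuousLinearMap.apply ℝ ℝ x).continuous).comp continuous_subtype_val,
    fun U hU => hU, Pool.Agent.J6H34.RT.nonmeagre_all h⟩
  tfae_have 5 → 1 := fun h => Pool.Agent.J6H34.RT.ucN htr h
  tfae_have 6 → 1 := fun h => Pool.Agent.J6H34.RT.ucW htr h
  tfae_have 7 → 1 := fun ⟨τ, h1, h2, h3, h4⟩ =>
    Pool.Agent.J6H34.RT.ucTop htr τ (fun T => h1 T.symm) h2 h3 h4
  tfae_have 1 → 8 := fun h => Pool.Agent.J6H34.RT.smallWeak_of_uc h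
  tfae_have 8 → 4 := fun h => Pool.Agent.J6H34.RT.att_of_smallWeak htr h
  tfae_have 2 → 9 := fun h => by
    have hnt : Nontrivial (StrongDual ℝ E) := by
      obtain ⟨x₀, hx₀⟩ := exists_norm_eq E (zero_le_one (α := ℝ))
      obtain ⟨f₀, hf₀, -⟩ := Pool.Agent.J6H34.RT.exists_supp hx₀
      exact ⟨f₀, 0, norm_ne_zero_iff.1 (by rw [hf₀]; exact one_ne_zero)⟩
    exact Pool.Agent.J6H34.RT.smallWeak_of_uc h
  tfae_have 9 → 4 := fun h => Pool.Agent.J6H34.RT.att_of_smallWeakDual htr h
  tfae_finish

end Pool.Agent.Results.MP_cc72b1_an.NormAttaining
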