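import Pool.Agent.J6H26.MM.Fin

/-! # Almost transitive norms with Kalton's property (M)

Let `E` be a real Banach space with separable dual whose isometries have dense orbits on the unit
sphere. If `E` has Kalton's property (M) (the limits of `‖u + w n‖` along weakly null sequences `w`
depend only on `‖u‖`), or if the compact operators on `E` have the three ball property in the bounded
operators (they are an M-ideal), then `E` is a Hilbert space.

Proof (files `Pool/Agent/J6H26/MM`).
1. `Us.lean`, `Refl.lean`: Baire's theorem in the separable dual gives uniform smoothness, then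
   reflexivity, dense orbits in the dual and uniform convexity.
2. `MI.lean`: in a uniformly convex space the three ball property gives property (M).
3. `Ty.lean`: the limit function `N w a = lim ‖a e + w n‖` (`‖e‖ = 1`) is convex, even, strictly
   increasing on `[0, ∞)`, and `N w a ≤ a + o(1)` at infinity.
4. `Op.lean`: let `R`, `R'` be the weak limits of isometries `g n` and of their inverses. Comparing
   `‖z + g n u‖` and `‖(g n)⁻¹ z + u‖` gives `N (g u - R u) ‖z + R u‖ = N (g⁻¹ z - R' z) ‖u + R' z‖`.
   Inserting a weakly null sequence for `u` one finds: if `‖R' z‖` is not constant on the sphere,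
   then all normalized weakly null sequences have the same limit function.
5. `One.lean`: in this case the limit function defines an associative operation on `[0, ∞)`, it is
   `(1 + a ^ p) ^ (1 / p)`, and the starting file `TwoSidedEstimates` applies.
6. `Two.lean`: otherwise all weak limits are multiples of isometries; uniform convexity gives
   `R' R = r r'`, and one finds isometries `g n` which tend weakly to `r`, with `(g n)⁻¹` tending
   weakly to `r'`, for every `r < 1`.
7. `Pl.lean`, `Flat.lean`: the plane norm `lim ‖a x + b g n x‖` has two reflections, whose product is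
   a rotation by a small angle (up to sign), so it is nearly Euclidean, `r'` is close to `r`, and the
   identity in 4 gives `‖z + r u‖ ^ 2 - ‖u + r z‖ ^ 2 = O (r ^ 2)` on the sphere. So the duality map
   is symmetric, hence additive: the parallelogram law.
-/

set_option autoImplicit false

namespace Pool.Agent.Results.MP_cc72b1_an.PropertyM

open Pool.Agent.J6H26.MM Filter Topology

universe u

theorem result :
    ∀ (E : Type u) [NormedAddCommGroup E] [NormedSpace ℝ E] [CompleteSpace E],
      -- separable dual
      TopologicalSpace.SeparableSpace (StrongDual ℝ E) →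
      -- dense orbits on the unit sphere
      (∀ x y : E, ‖x‖ = 1 → ‖y‖ = 1 → ∀ ε : ℝ, 0 < ε → ∃ g : E ≃ₗᵢ[ℝ] E, ‖g x - y‖ < ε) →
      -- property (M), or the three ball property of the compact operators at the identity
      ((∀ w : ℕ → E, (∀ f : StrongDual ℝ E, Tendsto (fun n => f (w n)) atTop (𝓝 0)) →
        ∀ u v : E, ‖u‖ = ‖v‖ →
          limsup (fun n => ‖u + w n‖) atTop = limsup (fun n => ‖v + w n‖) atTop) ∨
        ∀ S : Fin 3 → (E →L[ℝ] E), (∀ i, IsCompactOperator (S i) ∧ ‖S i‖ ≤ 1) →
          ∀ ε : ℝ, 0 < ε → ∃ K : E →L[ℝ] E, IsCompactOperator K ∧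
            ∀ i, ‖ContinuousLinearMap.id ℝ E + S i - K‖ ≤ 1 + ε) →
      ∃ (H : Type u) (_ : NormedAddCommGroup H) (_ : InnerProductSpace ℝ H) (_ : CompleteSpace H),
        Nonempty (E ≃ₗᵢ[ℝ] H) := by
  intro E _ _ _ hsep hA hM
  have key := para_mu (E := E) hA fun hc => by
    rcases hM with hM | hM
    · exact mu_of_pm hM
    · exact mu_of_tb hc hM
  exact ⟨E, inferInstance, InnerProductSpace.ofNorm ℝ key, inferInstance,
    ⟨LinearIsometryEquiv.refl ℝ E⟩⟩

end Pool.Agent.Results.MP_cc72b1_an.PropertyM
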